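import Pool.Graph.R_pool_sql_team_seeded_3997aac3.Q72.EG.Def
import Pool.Graph.R_seed8.W597.EC.Plane

/-!
# The equation of a curve over `ℂ(ξ)`: algebra
-/

set_option autoImplicit false

namespace Pool.Agent.Helper34.NT

open MvPolynomial Pool.Agent.Q72.EG

section ker

variable {k E : Type} [Field k] [Field E] [Algebra k E]

theorem inj1 {y2 : E} (h2 : Transcendental k y2) :
    Function.Injective (aeval (fun _ : Fin 1 => y2) : MvPolynomial (Fin 1) k →ₐ[k] E) := by
  have h := (algebraicIndependent_unique_type_iff (R := k) (x := fun _ : Fin 1 => y2)).2 h2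
  exact h

/-- algebraicity over the image of a field -/
theorem alg_of_range {K : Type} [Field K] [Algebra k K] (ψ : K →ₐ[k] E) {M : IntermediateField k E}
    (hM : M ≤ ψ.fieldRange) {v : E} (hv : IsAlgebraic M v) :
    letI := ψ.toRingHom.toAlgebra
    IsAlgebraic K v := by
  let _ := ψ.toRingHom.toAlgebra
  have hex : ∀ m : M, ∃ a : K, ψ a = m := fun m => hM m.2
  have hinj : Function.Injective ψ := ψ.toRingHom.injective
  let f : M →+* K :=
    { toFun := fun m => (hex m).choose
      map_one' := hinj (by rw [(hex 1).choose_spec, map_one]; rfl)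
      map_zero' := hinj (by rw [(hex 0).choose_spec, map_zero]; rfl)
      map_add' := fun a b => hinj (by
        rw [map_add, (hex (a + b)).choose_spec, (hex a).choose_spec, (hex b).choose_spec]; rfl)
      map_mul' := fun a b => hinj (by
        rw [map_mul, (hex (a * b)).choose_spec, (hex a).choose_spec, (hex b).choose_spec]; rfl) }
  have h := IsAlgebraic.ringHom_of_comp_eq (R := M) (S := K) (A := E) (B := E) f (RingHom.id E) hv
    f.injective (by
      ext m
      exact (hex m).choose_spec)
  exact h

/-- the kernel of evaluation at `(y3, y2)` is principal -/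
theorem kerp {y2 y3 : E} (h2 : Transcendental k y2)
    (h3 : IsAlgebraic (IntermediateField.adjoin k {y2}) y3) :
    ∃ F : MvPolynomial (Fin 2) k, F ≠ 0 ∧
      ∀ G : MvPolynomial (Fin 2) k, aeval ![y3, y2] G = 0 ↔ F ∣ G := by
  let φ : MvPolynomial (Fin 1) k →ₐ[k] E := aeval (fun _ : Fin 1 => y2)
  have hφ : Function.Injective φ := inj1 h2
  let K := FractionRing (MvPolynomial (Fin 1) k)
  let ψ : K →ₐ[k] E := IsFractionRing.liftAlgHom (K := K) hφ
  have hψ : ∀ a : MvPolynomial (Fin 1) k, ψ (algebraMap _ K a) = φ a := by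
    intro a
    exact IsFractionRing.lift_algebraMap (K := K) hφ a
  let _ : Algebra (MvPolynomial (Fin 1) k) E := φ.toRingHom.toAlgebra
  have hM : IntermediateField.adjoin k {y2} ≤ ψ.fieldRange := by
    rw [IntermediateField.adjoin_le_iff]
    rintro _ rfl
    refine ⟨algebraMap (MvPolynomial (Fin 1) k) K (X 0), ?_⟩
    show ψ (algebraMap (MvPolynomial (Fin 1) k) K (X 0)) = _
    rw [hψ]
    simp [φ]
  let _ : Algebra K E := ψ.toRingHom.toAlgebra
  have hst : IsScalarTower (MvPolynomial (Fin 1) k) K E :=
    IsScalarTower.of_algebraMap_eq fun a => (hψ a).symm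
  have halg : IsAlgebraic K y3 := alg_of_range ψ hM h3
  obtain ⟨F, hF, -, hG⟩ := Pool.Agent.W597.EC.ker_principal (R := MvPolynomial (Fin 1) k)
    (K := K) (L := E) y3 halg
  have key : ∀ G : MvPolynomial (Fin 2) k,
      Polynomial.aeval y3 (finSuccEquiv k 1 G) = aeval ![y3, y2] G := by
    intro G
    induction G using MvPolynomial.induction_on with
    | C a =>
      rw [MvPolynomial.finSuccEquiv_apply]
      simp only [eval₂Hom_C, RingHom.coe_comp, Function.comp_apply, Polynomial.aeval_C,
        MvPolynomial.aeval_C]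
      show φ (C a) = _
      simp [φ]
    | add p q hp hq => rw [map_add, map_add, map_add, hp, hq]
    | mul_X p i hp =>
      rw [map_mul, map_mul, map_mul, hp]
      congr 1
      refine Fin.cases ?_ (fun j => ?_) i
      · rw [finSuccEquiv_X_zero, Polynomial.aeval_X, aeval_X]
        rfl
      · rw [finSuccEquiv_X_succ, Polynomial.aeval_C, aeval_X]
        have : j = 0 := Subsingleton.elim _ _
        subst this
        show φ (X 0) = _
        simp [φ]
  refine ⟨(finSuccEquiv k 1).symm F, ?_, fun G => ?_⟩
  · intro h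
    apply hF.ne_zero
    have := congrArg (finSuccEquiv k 1) h
    rw [AlgEquiv.apply_symm_apply, map_zero] at this
    exact this
  · rw [← key, hG]
    constructor
    · rintro ⟨H, hH⟩
      refine ⟨(finSuccEquiv k 1).symm H, ?_⟩
      apply (finSuccEquiv k 1).injective
      rw [map_mul, AlgEquiv.apply_symm_apply, AlgEquiv.apply_symm_apply, hH]
    · rintro ⟨H, hH⟩
      refine ⟨finSuccEquiv k 1 H, ?_⟩
      rw [hH, map_mul, AlgEquiv.apply_symm_apply]

end ker

section clear

variable {E : Type} [Field E] [Algebra ℂ E] {σ : Type}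

/-- the coefficients of a polynomial over `ℂ(ξ)` have a common denominator -/
theorem clear (ξ : σ → E) {τ : Type}
    (G : MvPolynomial τ (IntermediateField.adjoin ℂ (Set.range ξ))) :
    ∃ (d : MvPolynomial σ ℂ) (G' : MvPolynomial τ (MvPolynomial σ ℂ)), aeval ξ d ≠ 0 ∧
      map (aeval ξ : MvPolynomial σ ℂ →ₐ[ℂ] E).toRingHom G' =
        C (aeval ξ d) * map (algebraMap _ E) G := by
  classical
  induction G using MvPolynomial.induction_on' with
  | monomial u a =>
    obtain ⟨r, s, hrs⟩ := (IntermediateField.mem_adjoin_range_iff ℂ ξ (a : E)).1 a.2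
    by_cases hs : aeval ξ s = 0
    · refine ⟨1, 0, by simp, ?_⟩
      rw [hs, div_zero] at hrs
      rw [map_monomial]
      have : algebraMap (IntermediateField.adjoin ℂ (Set.range ξ)) E a = 0 := hrs
      rw [this]
      simp
    · refine ⟨s, monomial u r, hs, ?_⟩
      rw [map_monomial, map_monomial, C_mul_monomial]
      congr 1
      have : algebraMap (IntermediateField.adjoin ℂ (Set.range ξ)) E a =
        aeval ξ r / aeval ξ s := hrs
      rw [this]
      show aeval ξ r = _
      field_simp
  | add p q hp hq =>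
    obtain ⟨d1, G1, h1, h1'⟩ := hp
    obtain ⟨d2, G2, h2, h2'⟩ := hq
    refine ⟨d1 * d2, C d2 * G1 + C d1 * G2, ?_, ?_⟩
    · rw [map_mul]; exact mul_ne_zero h1 h2
    · rw [map_add, map_mul, map_mul, h1', h2', map_C, map_C, map_add]
      show C (aeval ξ d2) * _ + C (aeval ξ d1) * _ = _
      rw [map_mul, map_mul]
      ring

end clear

end Pool.Agent.Helper34.NT
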