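import Pool.Agent.Helper34.NT.Fib1

/-!
# The equation of a curve over `ℂ(ξ)`: the statement `S_fibre`
-/

set_option autoImplicit false

namespace Pool.Agent.Helper34.NT

open MvPolynomial Pool.Agent.Q72.EG

theorem kappa {K1 E : Type} [Field K1] [Field E] [Algebra K1 E] {y2 y3 : E} (hy2 : y2 ≠ 0)
    (hy3 : y3 ≠ 0) (hmn : ∀ a b : ℤ, IsAlgebraic K1 (y2 ^ a * y3 ^ b) → a = 0 ∧ b = 0)
    (S : Finset (ℤ × ℤ)) (hS : S.Nonempty) (c : ℤ × ℤ → K1) (hc : ∀ k ∈ S, c k ≠ 0)
    (hrel : ∑ k ∈ S, algebraMap K1 E (c k) * (y2 ^ k.1 * y3 ^ k.2) = 0) (κ : ℂ) :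
    ∃ a ∈ S, ∃ b ∈ S, (a.1 : ℂ) * κ + (a.2 : ℂ) ≠ (b.1 : ℂ) * κ + (b.2 : ℂ) := by
  classical
  by_contra hcon
  push Not at hcon
  obtain ⟨b, hb, hmin⟩ := S.exists_min_image (fun k => k.1) hS
  have hone : ∀ a ∈ S, a.1 = b.1 → a = b := by
    intro a ha h1
    have h2 := hcon a ha b hb
    rw [h1] at h2
    have h3 : (a.2 : ℂ) = b.2 := add_left_cancel h2
    exact Prod.ext h1 (by exact_mod_cast h3)
  have hinjK : Function.Injective (algebraMap K1 E) := (algebraMap K1 E).injective
  by_cases hall : ∀ a ∈ S, a = b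
  · have hSb : S = {b} := Finset.eq_singleton_iff_unique_mem.2 ⟨hb, hall⟩
    rw [hSb, Finset.sum_singleton] at hrel
    rcases mul_eq_zero.1 hrel with h | h
    · exact hc b hb (hinjK (by rw [h, map_zero]))
    · rcases mul_eq_zero.1 h with h | h
      · exact zpow_ne_zero _ hy2 h
      · exact zpow_ne_zero _ hy3 h
  · push Not at hall
    obtain ⟨a, ha, hab⟩ := hall
    have hp : 0 < a.1 - b.1 := by
      have h1 := hmin a ha
      rcases lt_or_eq_of_le h1 with h | h
      · omega
      · exact absurd (hone a ha h.symm) hab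
    have hgcd : 0 < Int.gcd (a.1 - b.1) (a.2 - b.2) := by
      rw [Int.gcd_pos_iff]
      left
      omega
    obtain ⟨p0, q0, hg1, hg2, hg3⟩ := Int.exists_gcd_one hgcd
    set G : ℤ := (Int.gcd (a.1 - b.1) (a.2 - b.2) : ℤ) with hG
    have hG0 : 0 < G := by rw [hG]; exact_mod_cast hgcd
    have hp0 : 0 < p0 := by
      by_contra h
      push Not at h
      have := mul_nonpos_of_nonpos_of_nonneg h hG0.le
      rw [← hg2] at this
      omega
    have hline : ∀ e ∈ S, p0 * (e.2 - b.2) = q0 * (e.1 - b.1) := by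
      intro e he
      have h1 := hcon e he b hb
      have h2 := hcon a ha b hb
      have h3 : ((a.1 - b.1 : ℤ) : ℂ) * ((e.2 - b.2 : ℤ) : ℂ) =
          ((a.2 - b.2 : ℤ) : ℂ) * ((e.1 - b.1 : ℤ) : ℂ) := by
        push_cast
        linear_combination (-(b.1 : ℂ) + (a.1 : ℂ)) * h1 - ((e.1 : ℂ) - (b.1 : ℂ)) * h2
      have h4 : (a.1 - b.1) * (e.2 - b.2) = (a.2 - b.2) * (e.1 - b.1) := by exact_mod_cast h3
      rw [hg2, hg3] at h4
      have h5 : G * (p0 * (e.2 - b.2)) = G * (q0 * (e.1 - b.1)) := by linear_combination h4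
      exact mul_left_cancel₀ hG0.ne' h5
    have hdvd : ∀ e ∈ S, p0 ∣ e.1 - b.1 := by
      intro e he
      have h1 : p0 ∣ q0 * (e.1 - b.1) := ⟨_, (hline e he).symm⟩
      exact Int.dvd_of_dvd_mul_right_of_gcd_one h1 hg1
    set t : ℤ × ℤ → ℤ := fun e => (e.1 - b.1) / p0 with ht
    have ht1 : ∀ e ∈ S, e.1 - b.1 = p0 * t e := by
      intro e he
      rw [ht]
      simp only
      rw [Int.mul_ediv_cancel' (hdvd e he)]
    have ht2 : ∀ e ∈ S, e.2 - b.2 = q0 * t e := by
      intro e he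
      have h1 := hline e he
      rw [ht1 e he] at h1
      have h2 : p0 * (e.2 - b.2) = p0 * (q0 * t e) := by linear_combination h1
      exact mul_left_cancel₀ hp0.ne' h2
    have ht0 : ∀ e ∈ S, 0 ≤ t e := by
      intro e he
      rw [ht]
      simp only
      exact Int.ediv_nonneg (by have := hmin e he; omega) hp0.le
    set w : E := y2 ^ p0 * y3 ^ q0 with hw
    have hterm : ∀ e ∈ S, y2 ^ e.1 * y3 ^ e.2 = (y2 ^ b.1 * y3 ^ b.2) * w ^ (t e).toNat := by
      intro e he
      have h1 : e.1 = b.1 + p0 * t e := by have := ht1 e he; omega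
      have h2 : e.2 = b.2 + q0 * t e := by have := ht2 e he; omega
      have h3 : w ^ (t e).toNat = w ^ (t e) := by
        rw [← zpow_natCast, Int.toNat_of_nonneg (ht0 e he)]
      rw [h3, h1, h2, zpow_add₀ hy2, zpow_add₀ hy3, zpow_mul, zpow_mul, hw, mul_zpow]
      have h4 : t (b.1 + p0 * t e, b.2 + q0 * t e) = t e := by
        rw [← h1, ← h2]
      ring
    let Q : Polynomial K1 := ∑ e ∈ S, Polynomial.monomial (t e).toNat (c e)
    have hQ1 : Polynomial.aeval w Q = 0 := by
      have h1 : (y2 ^ b.1 * y3 ^ b.2) * Polynomial.aeval w Q = 0 := by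
        rw [← hrel, map_sum, Finset.mul_sum]
        refine Finset.sum_congr rfl fun e he => ?_
        rw [Polynomial.aeval_monomial, hterm e he]
        ring
      rcases mul_eq_zero.1 h1 with h | h
      · exfalso
        rcases mul_eq_zero.1 h with h | h
        · exact zpow_ne_zero _ hy2 h
        · exact zpow_ne_zero _ hy3 h
      · exact h
    have hQ2 : Q.coeff 0 = c b := by
      show (∑ e ∈ S, Polynomial.monomial (t e).toNat (c e)).coeff 0 = c b
      rw [Polynomial.finsetSum_coeff, Finset.sum_eq_single b]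
      · have : t b = 0 := by rw [ht]; simp
        rw [this]
        simp
      · intro e he heb
        rw [Polynomial.coeff_monomial, if_neg]
        intro h
        have h1 : t e = 0 := by
          have := ht0 e he
          omega
        apply heb
        apply hone e he
        have := ht1 e he
        rw [h1] at this
        omega
      · intro h
        exact absurd hb h
    have hQ0 : Q ≠ 0 := by
      intro h
      rw [h, Polynomial.coeff_zero] at hQ2
      exact hc b hb hQ2.symm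
    have := (hmn p0 q0 ⟨Q, hQ0, hQ1⟩).1
    omega

section sub

variable {σ : Type}

/-- `g(ξ, y2, y3)` as a polynomial in `y3` (index `0`) and `y2` (index `1`) -/
noncomputable def sub : MvPolynomial (σ ⊕ Fin 2) ℂ →ₐ[ℂ] MvPolynomial (Fin 2) (MvPolynomial σ ℂ) :=
  aeval (Sum.elim (fun i => C (X i)) ![X 1, X 0])

theorem sub_eval {T : Type} [CommRing T] (f : MvPolynomial σ ℂ →+* T) (w : Fin 2 → T)
    (g : MvPolynomial (σ ⊕ Fin 2) ℂ) :
    eval₂ f w (sub g) = eval₂ (f.comp C) (Sum.elim (fun i => f (X i)) ![w 1, w 0]) g := by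
  induction g using MvPolynomial.induction_on with
  | C a =>
    rw [eval₂_C]
    have : sub (σ := σ) (C a) = C (C a) := by
      rw [sub, aeval_C]
      rfl
    rw [this, eval₂_C]
    rfl
  | add p q hp hq => rw [map_add, eval₂_add, eval₂_add, hp, hq]
  | mul_X p i hp =>
    have hX : eval₂ f w (sub (X i)) =
        Sum.elim (fun i => f (X i)) ![w 1, w 0] i := by
      rw [sub, aeval_X]
      rcases i with i | i
      · show eval₂ f w (C (X i)) = f (X i)
        rw [eval₂_C]
      · fin_cases i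
        · show eval₂ f w (X 1) = w 1
          rw [eval₂_X]
        · show eval₂ f w (X 0) = w 0
          rw [eval₂_X]
    rw [map_mul, eval₂_mul, eval₂_mul, hp, hX, eval₂_X]

end sub

/-- the exponent with `u 0 = k.2`, `u 1 = k.1` -/
noncomputable def toU (k : ℤ × ℤ) : Fin 2 →₀ ℕ :=
  Finsupp.equivFunOnFinite.symm ![k.2.toNat, k.1.toNat]

theorem toU_eq (u : Fin 2 →₀ ℕ) : toU ((u 1 : ℤ), (u 0 : ℤ)) = u := by
  ext i
  fin_cases i <;> simp [toU]

theorem fibre_core {E : Type} [Field E] [Algebra ℂ E] {σ : Type} [Finite σ] (ξ : σ → E)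
    (y2 y3 : E) (hy2 : y2 ≠ 0) (hy3 : y3 ≠ 0)
    (halg : IsAlgebraic (IntermediateField.adjoin ℂ (insert y2 (Set.range ξ))) y3)
    (hmn : ∀ a b : ℤ, IsAlgebraic (IntermediateField.adjoin ℂ (Set.range ξ)) (y2 ^ a * y3 ^ b) →
      a = 0 ∧ b = 0) :
    ∃ (S : Finset (ℤ × ℤ)) (c : ℤ × ℤ → MvPolynomial σ ℂ) (h : MvPolynomial σ ℂ),
      aeval ξ h ≠ 0 ∧ (∀ k ∈ S, aeval ξ (c k) ≠ 0) ∧
      (∀ p ∈ Pt ξ, eval p h ≠ 0 → ∀ Y2 Y3 : ℂ, Y2 ≠ 0 → Y3 ≠ 0 →
        ∑ k ∈ S, eval p (c k) * (Y2 ^ k.1 * Y3 ^ k.2) = 0 →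
        Sum.elim p ![Y2, Y3] ∈ Pt (Sum.elim ξ ![y2, y3])) ∧
      ∀ κ : ℂ, ∃ a ∈ S, ∃ b ∈ S, (a.1 : ℂ) * κ + (a.2 : ℂ) ≠ (b.1 : ℂ) * κ + (b.2 : ℂ) := by
  classical
  have h2 : Transcendental (IntermediateField.adjoin ℂ (Set.range ξ)) y2 := by
    intro h
    have := (hmn 1 0 (by simpa using h)).1
    omega
  have h3 : IsAlgebraic (IntermediateField.adjoin (IntermediateField.adjoin ℂ (Set.range ξ)) {y2})
      y3 := by
    have e : insert y2 (Set.range ξ) = Set.range ξ ∪ {y2} := by rw [Set.union_singleton]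
    rw [e, ← IntermediateField.adjoin_adjoin_left] at halg
    exact halg
  obtain ⟨F0, hF0, hF⟩ := kerp h2 h3
  obtain ⟨d0, F', hd0, hF'⟩ := clear ξ F0
  set φ : MvPolynomial σ ℂ →+* E := (aeval ξ : MvPolynomial σ ℂ →ₐ[ℂ] E).toRingHom with hφ
  have hφa : ∀ q, φ q = aeval ξ q := fun q => rfl
  set E' : Finset (Fin 2 →₀ ℕ) := F'.support.filter (fun u => aeval ξ (coeff u F') ≠ 0) with hE'
  set S : Finset (ℤ × ℤ) := E'.image (fun u => ((u 1 : ℤ), (u 0 : ℤ))) with hS
  set c : ℤ × ℤ → MvPolynomial σ ℂ := fun k => coeff (toU k) F' with hc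
  have hsum : ∀ {T : Type} [Field T] (f : MvPolynomial σ ℂ →+* T) (w2 w3 : T),
      (∀ q, aeval ξ q = 0 → f q = 0) →
      eval₂ f ![w3, w2] F' = ∑ k ∈ S, f (c k) * (w2 ^ k.1 * w3 ^ k.2) := by
    intro T _ f w2 w3 hf
    rw [eval₂_eq', hS, Finset.sum_image]
    · rw [hE', Finset.sum_filter]
      refine Finset.sum_congr rfl fun u _ => ?_
      split_ifs with h
      · rw [hc]
        simp only [toU_eq]
        rw [Fin.prod_univ_two, zpow_natCast, zpow_natCast]
        simp only [Matrix.cons_val_zero, Matrix.cons_val_one]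
        ring
      · push Not at h
        rw [hf _ h, zero_mul]
    · intro u _ v _ huv
      simp only [Prod.mk.injEq, Nat.cast_inj] at huv
      ext i
      fin_cases i
      · exact huv.2
      · exact huv.1
  have hcS : ∀ k ∈ S, aeval ξ (c k) ≠ 0 := by
    intro k hk
    rw [hS, Finset.mem_image] at hk
    obtain ⟨u, hu, rfl⟩ := hk
    rw [hc]
    simp only [toU_eq]
    exact (Finset.mem_filter.1 hu).2
  have hmap : ∀ G : MvPolynomial (Fin 2) (IntermediateField.adjoin ℂ (Set.range ξ)),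
      eval₂ (RingHom.id E) ![y3, y2] (map (algebraMap _ E) G) = aeval ![y3, y2] G := by
    intro G
    rw [eval₂_map, aeval_def]
    rfl
  have hrel : eval₂ φ ![y3, y2] F' = 0 := by
    have h4 : eval₂ (RingHom.id E) ![y3, y2] (map φ F') = 0 := by
      rw [hF', eval₂_mul, hmap, (hF F0).2 dvd_rfl, mul_zero]
    rw [eval₂_map] at h4
    exact h4
  have hSne : S.Nonempty := by
    rw [hS, Finset.image_nonempty]
    have h5 : map φ F' ≠ 0 := by
      rw [hF']
      refine mul_ne_zero ?_ ?_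
      · rw [Ne, C_eq_zero]
        exact hd0
      · intro h
        exact hF0 ((map_injective _ (algebraMap
          (IntermediateField.adjoin ℂ (Set.range ξ)) E).injective) (by rw [h, map_zero]))
    obtain ⟨u, hu⟩ := exists_coeff_ne_zero h5
    rw [coeff_map] at hu
    refine ⟨u, ?_⟩
    rw [hE', Finset.mem_filter, mem_support_iff]
    refine ⟨?_, hu⟩
    intro h
    apply hu
    rw [h, map_zero]
  -- the generators of the ideal
  set I : Ideal (MvPolynomial (σ ⊕ Fin 2) ℂ) :=
    RingHom.ker (aeval (Sum.elim ξ ![y2, y3]) : MvPolynomial (σ ⊕ Fin 2) ℂ →ₐ[ℂ] E) with hI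
  obtain ⟨s, hs⟩ : I.FG := IsNoetherian.noetherian I
  have hgen : ∀ g ∈ I, ∃ (d : MvPolynomial σ ℂ) (G : MvPolynomial (Fin 2) (MvPolynomial σ ℂ)),
      aeval ξ d ≠ 0 ∧ map φ (C d * sub g) = map φ (F' * G) := by
    intro g hg
    have hg' : aeval (Sum.elim ξ ![y2, y3]) g = 0 := hg
    let ξ' : σ → IntermediateField.adjoin ℂ (Set.range ξ) := fun i =>
      ⟨ξ i, IntermediateField.subset_adjoin _ _ ⟨i, rfl⟩⟩
    have hcomp : (algebraMap (IntermediateField.adjoin ℂ (Set.range ξ)) E).comp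
        (aeval ξ' : MvPolynomial σ ℂ →ₐ[ℂ] _).toRingHom = φ := by
      apply MvPolynomial.ringHom_ext
      · intro r
        simp only [hφ, RingHom.comp_apply]
        show algebraMap _ E (aeval ξ' (C r)) = aeval ξ (C r)
        rw [aeval_C, aeval_C]
        rfl
      · intro i
        simp only [hφ, RingHom.comp_apply]
        show algebraMap _ E (aeval ξ' (X i)) = aeval ξ (X i)
        rw [aeval_X, aeval_X]
        rfl
    set gK : MvPolynomial (Fin 2) (IntermediateField.adjoin ℂ (Set.range ξ)) :=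
      map (aeval ξ' : MvPolynomial σ ℂ →ₐ[ℂ] _).toRingHom (sub g) with hgK
    have h6 : map (algebraMap _ E) gK = map φ (sub g) := by
      rw [hgK, map_map, hcomp]
    have h7 : aeval ![y3, y2] gK = 0 := by
      rw [← hmap, h6, eval₂_map, RingHom.id_comp, sub_eval, ← hg', aeval_def]
      congr 1
      · ext r
        simp [hφ]
      · funext i
        rcases i with i | i
        · simp [hφ]
        · fin_cases i <;> simp
    obtain ⟨G0, hG0⟩ := (hF gK).1 h7
    obtain ⟨d, G, hd, hG⟩ := clear ξ G0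
    refine ⟨d0 * d, G, ?_, ?_⟩
    · rw [map_mul]
      exact mul_ne_zero hd0 hd
    · have e1 : map φ (C (d0 * d) * sub g) = C (aeval ξ d0) * C (aeval ξ d) *
          (map (algebraMap _ E) F0 * map (algebraMap _ E) G0) := by
        rw [map_mul, map_C, ← h6, hG0, map_mul (map _), hφa, map_mul, map_mul]
      have e2 : map φ (F' * G) = C (aeval ξ d0) * map (algebraMap _ E) F0 *
          (C (aeval ξ d) * map (algebraMap _ E) G0) := by
        rw [map_mul (map _), hF', hφ, hG]
      rw [e1, e2]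
      ring
  choose! d G hd hG using hgen
  have hker : ∀ p ∈ Pt ξ, ∀ q : MvPolynomial σ ℂ, aeval ξ q = 0 → eval p q = 0 :=
    fun p hp q hq => hp q hq
  refine ⟨S, c, ∏ g ∈ s, d g, ?_, hcS, ?_, ?_⟩
  · rw [map_prod, Finset.prod_ne_zero_iff]
    intro g hg
    exact hd g (by rw [← hs]; exact Ideal.subset_span hg)
  · intro p hp hhp Y2 Y3 hY2 hY3 hsum0
    have h8 : eval₂ (eval p) ![Y3, Y2] F' = 0 := by
      rw [hsum (eval p) Y2 Y3 (hker p hp)]
      exact hsum0
    have hIle : I ≤ RingHom.ker (eval (Sum.elim p ![Y2, Y3])) := by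
      rw [← hs, Ideal.span_le]
      intro g hg
      have hgI : g ∈ I := by rw [← hs]; exact Ideal.subset_span hg
      have h9 := hG g hgI
      have h10 : map (eval p) (C (d g) * sub g) = map (eval p) (F' * G g) := by
        ext u
        rw [coeff_map, coeff_map]
        have h11 := congrArg (coeff u) h9
        rw [coeff_map, coeff_map, ← sub_eq_zero, ← map_sub] at h11
        rw [← sub_eq_zero, ← map_sub]
        exact hp _ h11
      have h12 := congrArg (eval₂ (RingHom.id ℂ) ![Y3, Y2]) h10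
      rw [eval₂_map, eval₂_map, RingHom.id_comp, eval₂_mul, eval₂_mul, h8, zero_mul, eval₂_C,
        sub_eval] at h12
      have h13 : eval p (d g) ≠ 0 := by
        rw [map_prod, Finset.prod_ne_zero_iff] at hhp
        exact hhp g hg
      rcases mul_eq_zero.1 h12 with h | h
      · exact absurd h h13
      · show eval (Sum.elim p ![Y2, Y3]) g = 0
        rw [← h, eval, coe_eval₂Hom]
        congr 1
        · ext r
          simp
        · funext i
          rcases i with i | i
          · simp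
          · fin_cases i <;> simp
    intro g hg
    exact hIle hg
  · refine kappa hy2 hy3 hmn S hSne (fun k =>
      (⟨aeval ξ (c k), ?_⟩ : IntermediateField.adjoin ℂ (Set.range ξ))) ?_ ?_
    · exact (IntermediateField.mem_adjoin_range_iff ℂ ξ _).2 ⟨c k, 1, by simp⟩
    · intro k hk h
      exact hcS k hk (congrArg Subtype.val h)
    · rw [hsum φ y2 y3 (fun q hq => hq)] at hrel
      exact hrel

end Pool.Agent.Helper34.NT
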